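import Mathlib

set_option autoImplicit false

/-!
# Generalized Hénon maps of degree `d` with a rational cycle of quadratic length

For every field `K` of characteristic zero and every `d ≥ 5` there is a generalized Hénon map
`f(x, y) = (y, F(y) + x)` over `K` with `F` monic of degree `d` and a `K`-rational cycle of length
at least `((d - 4) ^ 2 + 4) / 2`, all of whose points have coordinates in `{0, ..., d - 1}`.

The values of `F` at `0, ..., d - 1` are prescribed in such a way that the second iterate of `f`
runs through a rectangle row by row (to the right, one row up, to the left, one row up, ...), and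
three extra symbols bring it back to the starting point.
-/

namespace Pool.Agent.Results.MP_c520af_nt.LongCycles

open Polynomial

/-- The generalized Hénon map `(x, y) ↦ (y, F(y) - δ x)`. -/
def henon {K : Type*} [Field K] (F : K[X]) (δ : K) : K × K → K × K :=
  fun p => (p.2, F.eval p.2 - δ * p.1)

/-! ### Combinatorics -/

/-- The prescribed values at the symbols `0, ..., a + q + 3`. -/
def val (a q s : ℕ) : ℤ :=
  if s = 0 ∨ s = a then 1
  else if s < a then 0
  else if s = a + 1 then -((a : ℤ) + q + 3)
  else if s ≤ a + 1 + q then (if Even (s - a) then 1 else -1)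
  else if s = a + q + 2 then (a : ℤ) + q + 3
  else -((q : ℤ) + 1)

/-- The states of the second iterate. -/
def st (a q t : ℕ) : ℕ × ℕ :=
  if t < a * q then (if Even (t / a) then (t % a, a + 2 + t / a) else (a - t % a, a + 2 + t / a))
  else if t = a * q then (0, a + q + 2)
  else if t = a * q + 1 then (a + q + 3, a + 1)
  else (0, a + 2)

lemma st_row {a q i j : ℕ} (hi : i < a) (hj : j < q) :
    st a q (a * j + i) = if Even j then (i, a + 2 + j) else (a - i, a + 2 + j) := by
  have h1 : a * j + i < a * q := by
    calc a * j + i < a * j + a := by omega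
      _ = a * (j + 1) := by ring
      _ ≤ a * q := Nat.mul_le_mul_left _ hj
  have h2 : (a * j + i) / a = j := by
    rw [Nat.mul_add_div (by omega), Nat.div_eq_of_lt hi, add_zero]
  have h3 : (a * j + i) % a = i := by
    rw [Nat.mul_add_mod, Nat.mod_eq_of_lt hi]
  unfold st
  rw [if_pos h1, h2, h3]

lemma st_end (a q : ℕ) : st a q (a * q) = (0, a + q + 2) := by
  unfold st
  rw [if_neg (by omega), if_pos rfl]

lemma st_end1 (a q : ℕ) : st a q (a * q + 1) = (a + q + 3, a + 1) := by
  unfold st
  rw [if_neg (by omega), if_neg (by omega), if_pos rfl]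

lemma st_end2 (a q : ℕ) : st a q (a * q + 2) = (0, a + 2) := by
  unfold st
  rw [if_neg (by omega), if_neg (by omega), if_neg (by omega)]

lemma st_zero {a q : ℕ} (ha : 0 < a) : st a q 0 = (0, a + 2) := by
  rcases Nat.eq_zero_or_pos q with rfl | hq
  · have := st_end a 0
    simpa using this
  · have := st_row (a := a) (q := q) (i := 0) (j := 0) ha hq
    simpa using this

/-- Every `t < a q` is `a j + i`. -/
lemma exists_row {a q t : ℕ} (ha : 0 < a) (ht : t < a * q) :
    ∃ i j : ℕ, i < a ∧ j < q ∧ t = a * j + i := by
  refine ⟨t % a, t / a, Nat.mod_lt _ ha, ?_, (Nat.div_add_mod t a).symm⟩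
  exact Nat.div_lt_of_lt_mul ht

lemma val_zero (a q : ℕ) : val a q 0 = 1 := by simp [val]
lemma val_a (a q : ℕ) : val a q a = 1 := by simp [val]
lemma val_mid {a q s : ℕ} (h0 : s ≠ 0) (h : s < a) : val a q s = 0 := by
  unfold val
  rw [if_neg (by omega), if_pos h]
lemma val_row {a q j : ℕ} (ha : 0 < a) (hj : j < q) :
    val a q (a + 2 + j) = if Even j then 1 else -1 := by
  unfold val
  rw [if_neg (by omega), if_neg (by omega), if_neg (by omega), if_pos (by omega)]
  have : a + 2 + j - a = j + 2 := by omega
  rw [this]
  simp [Nat.even_add]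
lemma val_r0 {a q : ℕ} (ha : 0 < a) : val a q (a + 1) = -((a : ℤ) + q + 3) := by
  unfold val
  rw [if_neg (by omega), if_neg (by omega), if_pos rfl]
lemma val_rtop {a q : ℕ} (ha : 0 < a) : val a q (a + q + 2) = (a : ℤ) + q + 3 := by
  unfold val
  rw [if_neg (by omega), if_neg (by omega), if_neg (by omega), if_neg (by omega), if_pos rfl]
lemma val_w {a q : ℕ} (ha : 0 < a) : val a q (a + q + 3) = -((q : ℤ) + 1) := by
  unfold val
  rw [if_neg (by omega), if_neg (by omega), if_neg (by omega), if_neg (by omega),
    if_neg (by omega)]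

/-- One step of the second iterate. -/
lemma step {a q : ℕ} (ha : 0 < a) (hq : Even q) {t : ℕ} (ht : t < a * q + 2) :
    ((st a q (t + 1)).1 : ℤ) = (st a q t).1 + val a q (st a q t).2 ∧
    ((st a q (t + 1)).2 : ℤ) = (st a q t).2 + val a q (st a q (t + 1)).1 := by
  rcases lt_or_ge t (a * q) with h | h
  · obtain ⟨i, j, hi, hj, rfl⟩ := exists_row ha h
    rcases lt_or_ge (i + 1) a with hi1 | hi1
    · rw [add_assoc, st_row hi1 hj, st_row hi hj]
      by_cases he : Even j
      · rw [if_pos he, if_pos he]
        refine ⟨?_, ?_⟩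
        · simp only [val_row ha hj, if_pos he]
          push_cast; ring
        · simp only [val_mid (by omega : i + 1 ≠ 0) hi1]
          push_cast; ring
      · rw [if_neg he, if_neg he]
        refine ⟨?_, ?_⟩
        · simp only [val_row ha hj, if_neg he]
          omega
        · simp only [val_mid (by omega : a - (i + 1) ≠ 0) (by omega : a - (i + 1) < a)]
          omega
    · have hia : i + 1 = a := by omega
      have ht1 : a * j + i + 1 = a * (j + 1) := by
        rw [add_assoc, hia]; ring
      rw [ht1, st_row hi hj]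
      rcases lt_or_ge (j + 1) q with hj1 | hj1
      · have h0 := st_row (a := a) (q := q) (i := 0) (j := j + 1) ha hj1
        rw [add_zero] at h0
        rw [h0]
        by_cases he : Even j
        · have he1 : ¬ Even (j + 1) := by simpa [Nat.even_add_one] using he
          rw [if_neg he1, if_pos he]
          refine ⟨?_, ?_⟩
          · simp only [val_row ha hj, if_pos he]
            omega
          · simp only [Nat.sub_zero, val_a]
            push_cast; ring
        · have he1 : Even (j + 1) := by simpa [Nat.even_add_one] using he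
          rw [if_pos he1, if_neg he]
          refine ⟨?_, ?_⟩
          · simp only [val_row ha hj, if_neg he]
            omega
          · simp only [val_zero]
            push_cast; ring
      · have hjq : j + 1 = q := by omega
        have he : ¬ Even j := by
          intro he
          rw [← hjq] at hq
          exact (by simpa [Nat.even_add_one] using hq : ¬ Even j) he
        rw [hjq, st_end, if_neg he]
        refine ⟨?_, ?_⟩
        · simp only [val_row ha hj, if_neg he]
          omega
        · simp only [val_zero]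
          omega
  · rcases Nat.lt_or_ge (a * q) t with h1 | h1
    · have h2 : t = a * q + 1 := by omega
      subst h2
      rw [st_end1, st_end2]
      refine ⟨?_, ?_⟩
      · simp only [val_r0 ha]
        push_cast; ring
      · simp only [val_zero]
        push_cast; ring
    · have h2 : t = a * q := by omega
      subst h2
      rw [st_end, st_end1]
      refine ⟨?_, ?_⟩
      · simp only [val_rtop ha]
        push_cast; ring
      · simp only [val_w ha]
        push_cast; ring

lemma st_bounds {a q : ℕ} (ha : 0 < a) (t : ℕ) :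
    (st a q t).1 < a + q + 4 ∧ a + 1 ≤ (st a q t).2 ∧ (st a q t).2 < a + q + 4 := by
  rcases lt_or_ge t (a * q) with h | h
  · obtain ⟨i, j, hi, hj, rfl⟩ := exists_row ha h
    rw [st_row hi hj]
    split_ifs <;> refine ⟨?_, ?_, ?_⟩ <;> simp only <;> omega
  · unfold st
    rw [if_neg (by omega)]
    split_ifs <;> refine ⟨?_, ?_, ?_⟩ <;> simp only <;> omega

lemma st_ne {a q : ℕ} (ha : 0 < a) {t : ℕ} (h0 : 0 < t) (ht : t < a * q + 2) :
    st a q t ≠ (0, a + 2) := by
  rcases lt_or_ge t (a * q) with h | h
  · obtain ⟨i, j, hi, hj, rfl⟩ := exists_row ha h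
    rw [st_row hi hj]
    intro hc
    split_ifs at hc with he
    · rw [Prod.mk.injEq] at hc
      have : j = 0 := by omega
      subst this
      omega
    · rw [Prod.mk.injEq] at hc
      omega
  · rcases Nat.lt_or_ge (a * q) t with h1 | h1
    · have h2 : t = a * q + 1 := by omega
      subst h2
      rw [st_end1]
      intro hc
      rw [Prod.mk.injEq] at hc
      omega
    · have h2 : t = a * q := by omega
      subst h2
      rw [st_end]
      intro hc
      rw [Prod.mk.injEq] at hc
      have hq : q = 0 := by omega
      subst hq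
      omega

/-! ### The map -/

section

variable {K : Type*} [Field K] [CharZero K]

/-- A monic polynomial of degree `d` with prescribed values at `0, ..., d - 1`. -/
lemma exists_poly (d : ℕ) (c : ℕ → K) :
    ∃ F : K[X], F.Monic ∧ F.natDegree = d ∧ ∀ s < d, F.eval (s : K) = c s := by
  classical
  let G : K[X] := Lagrange.interpolate (Finset.range d) (fun s : ℕ => (s : K)) c
  let H : K[X] := ∏ s ∈ Finset.range d, (X - C (s : K))
  have hinj : Set.InjOn (fun s : ℕ => (s : K)) (Finset.range d : Set ℕ) := by
    intro x _ y _ hxy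
    exact Nat.cast_injective hxy
  have hH : H.Monic := monic_prod_of_monic _ _ fun s _ => monic_X_sub_C _
  have hHd : H.natDegree = d := by
    rw [natDegree_prod_of_monic _ _ fun s _ => monic_X_sub_C _]
    simp only [natDegree_X_sub_C]
    simp
  have hHdeg : H.degree = d := by
    rw [degree_eq_natDegree hH.ne_zero, hHd]
  have hG : G.degree < H.degree := by
    rw [hHdeg]
    have h := Lagrange.degree_interpolate_lt c hinj
    rw [Finset.card_range] at h
    exact h
  refine ⟨H + G, hH.add_of_left hG, ?_, ?_⟩
  · rw [natDegree_add_eq_left_of_degree_lt hG, hHd]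
  · intro s hs
    have hs' : s ∈ Finset.range d := Finset.mem_range.mpr hs
    rw [eval_add]
    have h1 : H.eval (s : K) = 0 := by
      rw [eval_prod]
      exact Finset.prod_eq_zero hs' (by simp)
    have h2 : G.eval (s : K) = c s := Lagrange.eval_interpolate_at_node c hinj hs'
    rw [h1, h2, zero_add]

/-- The image of a state in `K × K`. -/
def emb (K : Type*) [Field K] (p : ℕ × ℕ) : K × K := ((p.1 : K), (p.2 : K))

lemma emb_inj {p p' : ℕ × ℕ} (h : emb K p = emb K p') : p = p' := by
  unfold emb at h
  rw [Prod.mk.injEq] at h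
  exact Prod.ext (by exact_mod_cast h.1) (by exact_mod_cast h.2)

variable {a q : ℕ} {F : K[X]}

lemma half_step (ha : 0 < a) (hq : Even q)
    (hF : ∀ s < a + q + 4, F.eval (s : K) = (val a q s : K)) {t : ℕ} (ht : t < a * q + 2) :
    henon F (-1) (emb K (st a q t)) = (((st a q t).2 : K), ((st a q (t + 1)).1 : K)) := by
  have h1 := (step ha hq ht).1
  have h2 : ((st a q (t + 1)).1 : K) = (st a q t).1 + (val a q (st a q t).2 : K) := by
    exact_mod_cast congrArg (Int.cast : ℤ → K) h1
  unfold henon emb
  simp only
  rw [hF _ (st_bounds ha t).2.2, h2]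
  refine Prod.ext rfl ?_
  simp only
  ring

lemma full_step (ha : 0 < a) (hq : Even q)
    (hF : ∀ s < a + q + 4, F.eval (s : K) = (val a q s : K)) {t : ℕ} (ht : t < a * q + 2) :
    henon F (-1) (((st a q t).2 : K), ((st a q (t + 1)).1 : K)) = emb K (st a q (t + 1)) := by
  have h1 := (step ha hq ht).2
  have h2 : ((st a q (t + 1)).2 : K) = (st a q t).2 + (val a q (st a q (t + 1)).1 : K) := by
    exact_mod_cast congrArg (Int.cast : ℤ → K) h1
  unfold henon emb
  simp only
  rw [hF _ (st_bounds ha (t + 1)).1, h2]
  refine Prod.ext rfl ?_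
  simp only
  ring

lemma iter (ha : 0 < a) (hq : Even q)
    (hF : ∀ s < a + q + 4, F.eval (s : K) = (val a q s : K)) :
    ∀ t ≤ a * q + 2, (henon F (-1))^[2 * t] (emb K (0, a + 2)) = emb K (st a q t) := by
  intro t
  induction t with
  | zero => intro _; rw [st_zero ha]; rfl
  | succ t ih =>
    intro ht
    have h1 : 2 * (t + 1) = (2 * t + 1) + 1 := by ring
    rw [h1, Function.iterate_succ_apply', Function.iterate_succ_apply', ih (by omega),
      half_step ha hq hF (by omega), full_step ha hq hF (by omega)]

lemma period (ha : 0 < a) (hq : Even q)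
    (hF : ∀ s < a + q + 4, F.eval (s : K) = (val a q s : K)) :
    Function.minimalPeriod (henon F (-1)) (emb K (0, a + 2)) = 2 * (a * q + 2) := by
  set f := henon F (-1 : K) with hf
  set P := emb K (0, a + 2) with hP
  have hper : Function.IsPeriodicPt f (2 * (a * q + 2)) P := by
    have h := iter ha hq hF (a * q + 2) le_rfl
    rw [st_end2] at h
    exact h
  have hle : Function.minimalPeriod f P ≤ 2 * (a * q + 2) := hper.minimalPeriod_le (by omega)
  have hpos : 0 < Function.minimalPeriod f P := hper.minimalPeriod_pos (by omega)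
  have hit : f^[Function.minimalPeriod f P] P = P := Function.iterate_minimalPeriod
  by_contra hne
  have hlt : Function.minimalPeriod f P < 2 * (a * q + 2) := lt_of_le_of_ne hle hne
  rcases Nat.even_or_odd' (Function.minimalPeriod f P) with ⟨t, ht | ht⟩
  · rw [ht, iter ha hq hF t (by omega), hP] at hit
    exact st_ne ha (by omega) (by omega) (emb_inj hit)
  · rw [ht, Function.iterate_succ_apply', iter ha hq hF t (by omega), hf,
      half_step ha hq hF (by omega), hP] at hit
    have h1 : ((st a q t).2 : K) = ((0 : ℕ) : K) := congrArg Prod.fst hit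
    have h2 : (st a q t).2 = 0 := by exact_mod_cast h1
    have h3 := (st_bounds (q := q) ha t).2.1
    omega

lemma orbit (ha : 0 < a) (hq : Even q)
    (hF : ∀ s < a + q + 4, F.eval (s : K) = (val a q s : K)) (k : ℕ) :
    ∃ i j : ℕ, i < a + q + 4 ∧ j < a + q + 4 ∧
      (henon F (-1))^[k] (emb K (0, a + 2)) = ((i : K), (j : K)) := by
  have hp := period ha hq hF
  rw [← Function.iterate_mod_minimalPeriod_eq, hp]
  have hlt : k % (2 * (a * q + 2)) < 2 * (a * q + 2) := Nat.mod_lt _ (by omega)
  set m := k % (2 * (a * q + 2))
  rcases Nat.even_or_odd' m with ⟨t, ht | ht⟩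
  · rw [ht, iter ha hq hF t (by omega)]
    exact ⟨_, _, (st_bounds ha t).1, (st_bounds ha t).2.2, rfl⟩
  · rw [ht, Function.iterate_succ_apply', iter ha hq hF t (by omega),
      half_step ha hq hF (by omega)]
    exact ⟨_, _, (st_bounds ha t).2.2, (st_bounds ha (t + 1)).1, rfl⟩

end

/-- For every field `K` of characteristic zero and every `d ≥ 5` there is a monic polynomial `F`
over `K` of degree `d` such that the generalized Hénon map `(x, y) ↦ (y, F(y) + x)` has a
`K`-rational cycle of length at least `((d - 4) ^ 2 + 4) / 2`, all of whose points have both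
coordinates in `{0, ..., d - 1}`. -/
theorem result (K : Type*) [Field K] [CharZero K] (d : ℕ) (hd : 5 ≤ d) :
    ∃ (F : K[X]) (P : K × K), F.Monic ∧ F.natDegree = d ∧
      (d - 4) ^ 2 + 4 ≤ 2 * Function.minimalPeriod (henon F (-1)) P ∧
      ∀ k : ℕ, ∃ i j : ℕ, i < d ∧ j < d ∧ (henon F (-1))^[k] P = ((i : K), (j : K)) := by
  obtain ⟨n, rfl⟩ : ∃ n, d = n + 4 := ⟨d - 4, by omega⟩
  have hn : 1 ≤ n := by omega
  obtain ⟨m, hm⟩ : ∃ m, m = (n + 1) / 4 := ⟨_, rfl⟩
  obtain ⟨a, ha⟩ : ∃ a, n = a + 2 * m := ⟨n - 2 * m, by omega⟩
  have ha0 : 0 < a := by omega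
  obtain ⟨F, hF1, hF2, hF3⟩ := exists_poly (K := K) (n + 4) (fun s => (val a (2 * m) s : K))
  have hF : ∀ s < a + 2 * m + 4, F.eval (s : K) = (val a (2 * m) s : K) := by
    intro s hs
    exact hF3 s (by omega)
  have hq : Even (2 * m) := even_two_mul m
  refine ⟨F, emb K (0, a + 2), hF1, hF2, ?_, ?_⟩
  · rw [period ha0 hq hF]
    have h1 : n + 4 - 4 = n := by omega
    rw [h1]
    have h2 : a ≤ 2 * m + 2 := by omega
    have h3 : 2 * m ≤ a + 2 := by omega
    subst ha
    rcases le_total a (2 * m) with h | h
    · obtain ⟨e, he⟩ := Nat.exists_eq_add_of_le h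
      have he2 : e ≤ 2 := by omega
      rw [he]
      interval_cases e <;> nlinarith
    · obtain ⟨e, he⟩ := Nat.exists_eq_add_of_le h
      have he2 : e ≤ 2 := by omega
      rw [he]
      interval_cases e <;> nlinarith
  · intro k
    obtain ⟨i, j, hi, hj, h⟩ := orbit ha0 hq hF k
    exact ⟨i, j, by omega, by omega, h⟩

end Pool.Agent.Results.MP_c520af_nt.LongCycles
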